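import Pool.Agent.helper84.LP.SpecP

open MeasureTheory Set

set_option autoImplicit false

namespace Pool.Agent.LP

noncomputable section

theorem RGG_exp (A g : ℝ) (hg : 0 < g) : ∃ m0 : ℕ, 1 ≤ m0 ∧ ∀ m : ℕ, m0 ≤ m → A ≤ Real.exp (g * m) := by
  refine ⟨max 1 ⌈A / g⌉₊, le_max_left _ _, fun m hm => ?_⟩
  have h1 : A / g ≤ m := (Nat.le_ceil _).trans (by exact_mod_cast (le_max_right 1 ⌈A / g⌉₊).trans hm)
  rw [div_le_iff₀ hg] at h1
  have h2 := Real.add_one_le_exp (g * m)
  linarith [mul_comm g (m : ℝ)]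

theorem RGG_proof : RGG_stmt := by
  classical
  intro C1 a η κ G hC1 ha hη haη hG hκ
  have hG0 : (0 : ℝ) < G := by exact_mod_cast hG
  have hg : 0 < G * (κ - 1 / G - η) := mul_pos hG0 (by linarith)
  have hgeq : G * (κ - 1 / G - η) = G * κ - 1 - G * η := by field_simp
  rw [hgeq] at hg
  obtain ⟨m0, hm01, hm0⟩ := RGG_exp ((2 * C1 + 3) * C1) (G * κ - 1 - G * η) hg
  refine ⟨m0, fun m D c x hm hc1 hc4 hAR => ?_⟩
  have hbig := hm0 m hm
  have hm1 : (1 : ℝ) ≤ m := by exact_mod_cast hm01.trans hm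
  have hm00 : (0 : ℝ) < m := by linarith
  have hc0 : 0 < c := by linarith
  obtain ⟨hA1, hA2⟩ := hAR
  intro y R hR
  have hR0 : 0 < R := by linarith
  have hlogR : 0 ≤ Real.log R := Real.log_nonneg hR
  -- the count of the image
  have h1 : (((D.image fun d : ℤ => c * ((d : ℝ) - x)).filter fun t => |t - y| ≤ R).card : ℝ) ≤
      ((D.filter fun d : ℤ => |(d : ℝ) - (x + y / c)| ≤ R).card : ℝ) := by
    have h2 : ((D.image fun d : ℤ => c * ((d : ℝ) - x)).filter fun t => |t - y| ≤ R) ⊆
        (D.filter fun d : ℤ => |(d : ℝ) - (x + y / c)| ≤ R).image fun d : ℤ => c * ((d : ℝ) - x) := by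
      intro t ht
      rw [Finset.mem_filter, Finset.mem_image] at ht
      obtain ⟨⟨d, hd, rfl⟩, hty⟩ := ht
      rw [Finset.mem_image]
      refine ⟨d, ?_, rfl⟩
      rw [Finset.mem_filter]
      refine ⟨hd, ?_⟩
      have h3 : c * ((d : ℝ) - x) - y = c * ((d : ℝ) - (x + y / c)) := by
        field_simp
        ring
      rw [h3, abs_mul, abs_of_pos hc0] at hty
      have h4 : 0 ≤ |(d : ℝ) - (x + y / c)| := abs_nonneg _
      nlinarith
    exact_mod_cast (Finset.card_le_card h2).trans Finset.card_image_le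
  refine h1.trans ?_
  have hNk : Real.exp (G * m) ^ κ = Real.exp (κ * (G * m)) := by
    rw [← Real.exp_mul]
    ring_nf
  have hRa : R ^ a = Real.exp (a * Real.log R) := by
    rw [Real.rpow_def_of_pos hR0]
    ring_nf
  rw [hNk, hRa, ← Real.exp_add]
  have hC11 : C1 ≤ (2 * C1 + 3) * C1 := by nlinarith
  rcases le_or_gt R (Real.exp (G * m)) with hRN | hRN
  · have hlog : Real.log R ≤ G * m := (Real.log_le_iff_le_exp hR0).2 hRN
    set i : ℕ := ⌈Real.log R / m⌉₊ with hi
    have hiG : i ≤ G := by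
      rw [hi, Nat.ceil_le, div_le_iff₀ hm00]
      exact hlog
    have hi1 : Real.log R ≤ i * m := by
      have := Nat.le_ceil (Real.log R / m)
      rw [div_le_iff₀ hm00] at this
      exact this
    have hi2 : (i : ℝ) * m ≤ Real.log R + m := by
      have := (Nat.ceil_lt_add_one (show 0 ≤ Real.log R / m by positivity)).le
      have h5 : (i : ℝ) * m ≤ (Real.log R / m + 1) * m := mul_le_mul_of_nonneg_right this hm00.le
      rwa [add_mul, one_mul, div_mul_cancel₀ _ hm00.ne'] at h5
    have hRi : R ≤ Real.exp (i * m) := by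
      rw [← Real.log_le_iff_le_exp hR0]
      exact hi1
    have h2 := hA2 i hiG (x + y / c)
    have h3 : ((D.filter fun d : ℤ => |(d : ℝ) - (x + y / c)| ≤ R).card : ℝ) ≤
        ((D.filter fun d : ℤ => |(d : ℝ) - (x + y / c)| ≤ Real.exp (i * m)).card : ℝ) := by
      have h4 : (D.filter fun d : ℤ => |(d : ℝ) - (x + y / c)| ≤ R) ⊆ (D.filter fun d : ℤ => |(d : ℝ) - (x + y / c)| ≤ Real.exp (i * m)) := by
        intro d hd
        rw [Finset.mem_filter] at hd ⊢
        exact ⟨hd.1, hd.2.trans hRi⟩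
      exact_mod_cast Finset.card_le_card h4
    refine h3.trans (h2.trans ?_)
    calc C1 * Real.exp ((a + η) * (i * m)) ≤ Real.exp ((G * κ - 1 - G * η) * m) * Real.exp ((a + η) * (i * m)) :=
          mul_le_mul_of_nonneg_right (hC11.trans hbig) (Real.exp_pos _).le
      _ = Real.exp ((G * κ - 1 - G * η) * m + (a + η) * (i * m)) := by rw [Real.exp_add]
      _ ≤ Real.exp (κ * (G * m) + a * Real.log R) := by
          refine Real.exp_le_exp.mpr ?_
          have h5 : (a + η) * (i * m) ≤ (a + η) * (Real.log R + m) := mul_le_mul_of_nonneg_left hi2 (by linarith)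
          have h6 : η * Real.log R ≤ η * (G * m) := mul_le_mul_of_nonneg_left hlog hη
          have h7 : (a + η) * m ≤ 1 * m := mul_le_mul_of_nonneg_right haη hm00.le
          nlinarith
  · -- all of `D`
    have hlogR2 : G * m ≤ Real.log R := by
      rw [← Real.log_exp (G * m)]
      exact Real.log_le_log (Real.exp_pos _) hRN.le
    set K : ℕ := ⌈C1⌉₊ with hK
    have hKC : C1 ≤ K := Nat.le_ceil _
    have hKC2 : (K : ℝ) ≤ C1 + 1 := (Nat.ceil_lt_add_one (by linarith)).le
    have hN0 : 0 < Real.exp (G * m) := Real.exp_pos _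
    have hcov : D ⊆ (Finset.Icc (-(K : ℤ)) K).biUnion fun j : ℤ => D.filter fun d : ℤ => |(d : ℝ) - j * Real.exp (G * m)| ≤ Real.exp (G * m) := by
      intro d hd
      rw [Finset.mem_biUnion]
      have hdC := abs_le.1 (hA1 d hd)
      refine ⟨⌊(d : ℝ) / Real.exp (G * m)⌋, ?_, ?_⟩
      · rw [Finset.mem_Icc]
        constructor
        · rw [Int.le_floor]
          push_cast
          rw [le_div_iff₀ hN0]
          nlinarith [hdC.1]
        · have : (⌊(d : ℝ) / Real.exp (G * m)⌋ : ℝ) ≤ K := by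
            refine (Int.floor_le _).trans ?_
            rw [div_le_iff₀ hN0]
            nlinarith [hdC.2]
          exact_mod_cast this
      · rw [Finset.mem_filter]
        refine ⟨hd, ?_⟩
        have e1 := Int.floor_le ((d : ℝ) / Real.exp (G * m))
        have e2 := Int.lt_floor_add_one ((d : ℝ) / Real.exp (G * m))
        rw [le_div_iff₀ hN0] at e1
        rw [div_lt_iff₀ hN0] at e2
        rw [abs_le]
        constructor <;> nlinarith
    have hcard : (D.card : ℝ) ≤ (2 * K + 1) * (C1 * Real.exp ((a + η) * (G * m))) := by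
      have e1 : (D.card : ℝ) ≤ ∑ j ∈ Finset.Icc (-(K : ℤ)) K, ((D.filter fun d : ℤ => |(d : ℝ) - j * Real.exp (G * m)| ≤ Real.exp (G * m)).card : ℝ) := by
        exact_mod_cast (Finset.card_le_card hcov).trans Finset.card_biUnion_le
      refine e1.trans ?_
      have e2 : ∀ j ∈ Finset.Icc (-(K : ℤ)) K, ((D.filter fun d : ℤ => |(d : ℝ) - j * Real.exp (G * m)| ≤ Real.exp (G * m)).card : ℝ) ≤ C1 * Real.exp ((a + η) * (G * m)) :=
        fun j _ => hA2 G le_rfl (j * Real.exp (G * m))
      refine (Finset.sum_le_sum e2).trans ?_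
      rw [Finset.sum_const, nsmul_eq_mul, Int.card_Icc]
      refine mul_le_mul_of_nonneg_right ?_ (by positivity)
      have e3 : (((K : ℤ) + 1 - -(K : ℤ)).toNat : ℝ) = 2 * K + 1 := by
        have : ((K : ℤ) + 1 - -(K : ℤ)).toNat = 2 * K + 1 := by omega
        rw [this]
        push_cast
        ring
      rw [e3]
    have hfc : ((D.filter fun d : ℤ => |(d : ℝ) - (x + y / c)| ≤ R).card : ℝ) ≤ D.card := by
      exact_mod_cast Finset.card_filter_le _ _
    refine hfc.trans (hcard.trans ?_)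
    have hK3 : (2 * (K : ℝ) + 1) * C1 ≤ (2 * C1 + 3) * C1 := mul_le_mul_of_nonneg_right (by linarith) (by linarith)
    calc (2 * (K : ℝ) + 1) * (C1 * Real.exp ((a + η) * (G * m))) = ((2 * (K : ℝ) + 1) * C1) * Real.exp ((a + η) * (G * m)) := by ring
      _ ≤ Real.exp ((G * κ - 1 - G * η) * m) * Real.exp ((a + η) * (G * m)) :=
          mul_le_mul_of_nonneg_right (hK3.trans hbig) (Real.exp_pos _).le
      _ = Real.exp ((G * κ - 1 - G * η) * m + (a + η) * (G * m)) := by rw [Real.exp_add]
      _ ≤ Real.exp (κ * (G * m) + a * Real.log R) := by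
          refine Real.exp_le_exp.mpr ?_
          have h5 : a * (G * m) ≤ a * Real.log R := mul_le_mul_of_nonneg_left hlogR2 ha
          nlinarith

end

end Pool.Agent.LP
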